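import Pool.Agent.Helper33.KV.GoalsF
import Pool.Agent.Helper36.KL.Base

/-!
# Project KV, section F, FLUXP: the flux in inner variables
-/

namespace Pool.Agent.Helper33.KV

open Real MeasureTheory Pool.Agent.Helper41.KV

theorem fluxp_hasDerivAt {f : ℝ → ℝ} (hf : ContDiff ℝ (⊤ : ℕ∞) f) (y : ℝ) : HasDerivAt f (deriv f y) y :=
  (hf.differentiable (by simp) y).hasDerivAt

theorem fluxp_deriv {f : ℝ → ℝ} (hf : ContDiff ℝ (⊤ : ℕ∞) f) : ContDiff ℝ (⊤ : ℕ∞) (deriv f) :=
  (contDiff_infty_iff_deriv.1 hf).2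

theorem fluxp_aff (s l : ℝ) {F : ℝ → ℝ} (hF : ContDiff ℝ (⊤ : ℕ∞) F) (c y : ℝ) :
    HasDerivAt (fun y => c * F (s + l * y)) (c * l * deriv F (s + l * y)) y := by
  have h1 : HasDerivAt (fun y : ℝ => s + l * y) (l * 1) y := ((hasDerivAt_id y).const_mul l).const_add s
  have h2 := ((fluxp_hasDerivAt hF (s + l * y)).comp y h1).const_mul c
  refine h2.congr_deriv ?_
  ring

theorem flux_contDiff {h : ℝ → ℝ} (hh : ContDiff ℝ (⊤ : ℕ∞) h) : ContDiff ℝ (⊤ : ℕ∞) (flux h) := by
  have h1 : flux h = fun x => deriv (deriv h) x + h x ^ 5 := by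
    funext x
    unfold flux
    rw [iteratedDeriv_succ, iteratedDeriv_one]
  rw [h1]
  exact (fluxp_deriv (fluxp_deriv hh)).add (hh.pow 5)

/-- the flux in inner variables is the rescaled flux -/
theorem fluxp_eq {α t : ℝ} (hl : 0 ≤ lam α t) {g : ℝ → ℝ → ℝ} (hg : ContDiff ℝ (⊤ : ℕ∞) (g t)) :
    (fun x => iteratedDeriv 2 (inn α g t) x + inn α g t x ^ 5) =
      fun y => Real.sqrt (lam α t) * lam α t ^ 2 * flux (g t) (sig α t + lam α t * y) := by
  have hs2 : Real.sqrt (lam α t) ^ 2 = lam α t := Real.sq_sqrt hl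
  have h1 : deriv (inn α g t) = fun y => Real.sqrt (lam α t) * lam α t * deriv (g t) (sig α t + lam α t * y) := by
    funext y
    exact (fluxp_aff (sig α t) (lam α t) hg (Real.sqrt (lam α t)) y).deriv
  have h2 : deriv (deriv (inn α g t)) = fun y => Real.sqrt (lam α t) * lam α t * lam α t *
      deriv (deriv (g t)) (sig α t + lam α t * y) := by
    rw [h1]
    funext y
    exact (fluxp_aff (sig α t) (lam α t) (fluxp_deriv hg) (Real.sqrt (lam α t) * lam α t) y).deriv
  funext y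
  rw [iteratedDeriv_succ, iteratedDeriv_one, h2]
  unfold flux inn
  rw [iteratedDeriv_succ, iteratedDeriv_one]
  have h5 : (Real.sqrt (lam α t) * g t (sig α t + lam α t * y)) ^ 5 =
      Real.sqrt (lam α t) * (Real.sqrt (lam α t) ^ 2) ^ 2 * g t (sig α t + lam α t * y) ^ 5 := by ring
  rw [h5, hs2]
  ring

theorem thm_FLUXP (hE : S_ECL1) (hC : S_CURVE) : S_FLUXP := by
  obtain ⟨-, -, -, -, -, -, -, -, dE, -, -, -, -, -, -, -, intE⟩ := hE
  intro α hα hα1 t ht g hg
  obtain ⟨-, hl, -⟩ := (hC α hα hα1).1 t ht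
  have hB := fluxp_eq (α := α) (t := t) hl.le hg
  have hd : ∀ y, HasDerivAt (fun x => iteratedDeriv 2 (inn α g t) x + inn α g t x ^ 5)
      (lam α t ^ 3 * inn α (fun t x => deriv (flux (g t)) x) t y) y := by
    intro y
    rw [hB]
    refine (fluxp_aff (sig α t) (lam α t) (flux_contDiff hg) (Real.sqrt (lam α t) * lam α t ^ 2) y).congr_deriv ?_
    unfold inn
    ring
  refine ⟨fun y => ((hd y).deriv).symm, ?_⟩
  intro hL f hf
  have hHI : g t ∈ Pool.Agent.Helper36.KL.HI := ⟨hg, hL⟩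
  have hfl : flux (g t) ∈ Pool.Agent.Helper36.KL.HI :=
    Pool.Agent.Helper36.KL.HI.add_mem (Pool.Agent.Helper36.KL.iter_mem hHI 2)
      (Pool.Agent.Helper36.KL.pow_mem hHI 4)
  have hfl1 : deriv (flux (g t)) ∈ Pool.Agent.Helper36.KL.HI := by
    have h1 := Pool.Agent.Helper36.KL.iter_mem hfl 1
    rwa [iteratedDeriv_one] at h1
  obtain ⟨C0, hC0⟩ := Pool.Agent.Helper36.KL.exists_bound hfl
  obtain ⟨C1, hC1⟩ := Pool.Agent.Helper36.KL.exists_bound hfl1
  have haff : Continuous (fun y : ℝ => sig α t + lam α t * y) := by fun_prop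
  have hc0 : Continuous (fun x => iteratedDeriv 2 (inn α g t) x + inn α g t x ^ 5) := by
    rw [hB]
    exact continuous_const.mul ((flux_contDiff hg).continuous.comp haff)
  have hc1 : Continuous (fun y => lam α t ^ 3 * inn α (fun t x => deriv (flux (g t)) x) t y) := by
    unfold inn
    exact continuous_const.mul (continuous_const.mul ((fluxp_deriv (flux_contDiff hg)).continuous.comp haff))
  have hb0 : ∀ y, ‖iteratedDeriv 2 (inn α g t) y + inn α g t y ^ 5‖ ≤
      |Real.sqrt (lam α t) * lam α t ^ 2| * C0 := by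
    intro y
    have h1 : iteratedDeriv 2 (inn α g t) y + inn α g t y ^ 5 =
        Real.sqrt (lam α t) * lam α t ^ 2 * flux (g t) (sig α t + lam α t * y) := congrFun hB y
    rw [h1, Real.norm_eq_abs, abs_mul]
    exact mul_le_mul_of_nonneg_left (hC0 _) (abs_nonneg _)
  have hb1 : ∀ y, ‖lam α t ^ 3 * inn α (fun t x => deriv (flux (g t)) x) t y‖ ≤
      |lam α t ^ 3 * Real.sqrt (lam α t)| * C1 := by
    intro y
    unfold inn
    rw [← mul_assoc, Real.norm_eq_abs, abs_mul]
    exact mul_le_mul_of_nonneg_left (hC1 _) (abs_nonneg _)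
  have i0 : Integrable (fun y => (iteratedDeriv 2 (inn α g t) y + inn α g t y ^ 5) * f y) :=
    (intE _ hf).bdd_mul hc0.aestronglyMeasurable (ae_of_all _ hb0)
  have i1 : Integrable (fun y => (iteratedDeriv 2 (inn α g t) y + inn α g t y ^ 5) * deriv f y) :=
    (intE _ (dE _ hf)).bdd_mul hc0.aestronglyMeasurable (ae_of_all _ hb0)
  have i2 : Integrable (fun y => lam α t ^ 3 * inn α (fun t x => deriv (flux (g t)) x) t y * f y) :=
    (intE _ hf).bdd_mul hc1.aestronglyMeasurable (ae_of_all _ hb1)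
  have h0 : ∫ y, (lam α t ^ 3 * inn α (fun t x => deriv (flux (g t)) x) t y * f y
      + (iteratedDeriv 2 (inn α g t) y + inn α g t y ^ 5) * deriv f y) = 0 :=
    integral_eq_zero_of_hasDerivAt_of_integrable
      (fun y => (hd y).mul (fluxp_hasDerivAt hf.1 y)) (i2.add i1) i0
  rw [integral_add i2 i1] at h0
  have h1 : ∫ y, lam α t ^ 3 * inn α (fun t x => deriv (flux (g t)) x) t y * f y =
      lam α t ^ 3 * ∫ y, inn α (fun t x => deriv (flux (g t)) x) t y * f y := by
    rw [← integral_const_mul]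
    simp only [mul_assoc]
  rw [h1] at h0
  linarith

end Pool.Agent.Helper33.KV
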