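import Pool.Agent.Helper33.KV.GoalsF

/-!
# Project KV, section F, MASSID: the symmetry behind the gain of one power of `ρ`
-/

namespace Pool.Agent.Helper33.KV

open Real MeasureTheory Pool.Agent.Helper41.KV

theorem massid_hasDerivAt {f : ℝ → ℝ} (hf : ContDiff ℝ (⊤ : ℕ∞) f) (y : ℝ) : HasDerivAt f (deriv f y) y :=
  (hf.differentiable (by simp) y).hasDerivAt

/-- the integral of the derivative of a function of class `IsE` is zero -/
theorem integral_deriv_IsE (hE : S_ECL1) {f : ℝ → ℝ} (hf : IsE f) : ∫ y, deriv f y = 0 := by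
  obtain ⟨-, -, -, -, -, -, -, -, dE, -, -, -, -, -, -, -, intE⟩ := hE
  exact integral_eq_zero_of_hasDerivAt_of_integrable (massid_hasDerivAt hf.1) (intE _ (dE _ hf)) (intE _ hf)

theorem thm_MASSID (hE : S_ECL1) : S_MASSID := by
  have hE' := hE
  obtain ⟨hEW, hWP, addE, -, addP, mulPE, -, mulPP, dE, -, dP, hpoly, -, -, -, intPE, intE⟩ := hE
  intro α ρ v τ Dτ hv hτ hD
  have cP : ∀ c : ℝ, IsP (fun _ => c) := by
    intro c
    simpa using hpoly (Polynomial.C c)
  have yP : IsP (fun y => y) := by simpa using hpoly Polynomial.X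
  have smulE : ∀ (c : ℝ) (f : ℝ → ℝ), IsE f → IsE (fun y => c * f y) := fun c f hf => mulPE _ _ (cP c) hf
  have smulP : ∀ (c : ℝ) (f : ℝ → ℝ), IsP f → IsP (fun y => c * f y) := fun c f hf => mulPP _ _ (cP c) hf
  have powP : ∀ n : ℕ, IsP (fun y => v y ^ n) := by
    intro n
    induction n with
    | zero => simpa using cP 1
    | succ n ih =>
      simp only [pow_succ]
      exact mulPP _ _ ih hv
  have hτ1 := dE _ hτ
  have hτ2 := dE _ hτ1
  have hv1 := dP _ hv
  have hv2 := dP _ hv1
  have hQ : IsE (fun y => v y * deriv (deriv τ) y + -1 * (deriv v y * deriv τ y) + 4 * (v y ^ 5 * τ y)) :=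
    addE _ _ (addE _ _ (mulPE _ _ hv hτ2) (smulE _ _ (mulPE _ _ hv1 hτ1))) (smulE _ _ (mulPE _ _ (powP 5) hτ))
  have hQ0 := integral_deriv_IsE hE' hQ
  have hLam : IsE (Lam τ) := by
    have h1 : IsE (fun y => 1 / 2 * τ y + y * deriv τ y) := addE _ _ (smulE _ _ hτ) (mulPE _ _ yP hτ1)
    have h2 : Lam τ = fun y => 1 / 2 * τ y + y * deriv τ y := by
      funext y
      unfold Lam
      ring
    rw [h2]
    exact h1
  have hP : IsP (fun y => deriv (deriv v) y - v y + v y ^ 5) := by
    have h1 : IsP (fun y => deriv (deriv v) y + -1 * v y + v y ^ 5) :=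
      addP _ _ (addP _ _ hv2 (smulP _ _ hv)) (powP 5)
    have h2 : (fun y => deriv (deriv v) y - v y + v y ^ 5) = fun y => deriv (deriv v) y + -1 * v y + v y ^ 5 := by
      funext y
      ring
    rw [h2]
    exact h1
  have i1 : Integrable (fun y => v y * Dτ y) := intPE _ _ hv hD
  have i2 : Integrable (fun y => deriv (fun y => v y * deriv (deriv τ) y + -1 * (deriv v y * deriv τ y)
      + 4 * (v y ^ 5 * τ y)) y) := intE _ (dE _ hQ)
  have i3 : Integrable (fun y => (deriv (deriv v) y - v y + v y ^ 5) * deriv τ y) := intPE _ _ hP hτ1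
  have i4 : Integrable (fun y => v y * Lam τ y) := intPE _ _ hv hLam
  have key : ∀ y, calL α ρ v τ Dτ y * v y = (v y * Dτ y
      + (deriv (fun y => v y * deriv (deriv τ) y + -1 * (deriv v y * deriv τ y) + 4 * (v y ^ 5 * τ y)) y
        + (deriv (deriv v) y - v y + v y ^ 5) * deriv τ y)) - (2 * α + 1) * ρ * (v y * Lam τ y) := by
    intro y
    have d0 := massid_hasDerivAt hv.1 y
    have d1 := massid_hasDerivAt hv1.1 y
    have t0 := massid_hasDerivAt hτ.1 y
    have t1 := massid_hasDerivAt hτ1.1 y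
    have t2 := massid_hasDerivAt hτ2.1 y
    have e1 : deriv (fun y => v y * deriv (deriv τ) y + -1 * (deriv v y * deriv τ y) + 4 * (v y ^ 5 * τ y)) y =
        (deriv v y * deriv (deriv τ) y + v y * deriv (deriv (deriv τ)) y)
        + -1 * (deriv (deriv v) y * deriv τ y + deriv v y * deriv (deriv τ) y)
        + 4 * ((((5 : ℕ) : ℝ) * v y ^ (5 - 1) * deriv v y) * τ y + v y ^ 5 * deriv τ y) :=
      (((d0.mul t2).add ((d1.mul t1).const_mul (-1))).add (((d0.pow 5).mul t0).const_mul 4)).deriv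
    have e2 : deriv (fun x => deriv (deriv τ) x - τ x + 5 * v x ^ 4 * τ x) y =
        deriv (deriv (deriv τ)) y - deriv τ y + ((5 * (((4 : ℕ) : ℝ) * v y ^ (4 - 1) * deriv v y)) * τ y
          + 5 * v y ^ 4 * deriv τ y) :=
      ((t2.sub t0).add (((d0.pow 4).const_mul 5).mul t0)).deriv
    unfold calL
    rw [e1, e2]
    push_cast
    ring
  have i23 : Integrable (fun y => deriv (fun y => v y * deriv (deriv τ) y + -1 * (deriv v y * deriv τ y)
      + 4 * (v y ^ 5 * τ y)) y + (deriv (deriv v) y - v y + v y ^ 5) * deriv τ y) := i2.add i3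
  have i123 : Integrable (fun y => v y * Dτ y + (deriv (fun y => v y * deriv (deriv τ) y
      + -1 * (deriv v y * deriv τ y) + 4 * (v y ^ 5 * τ y)) y
      + (deriv (deriv v) y - v y + v y ^ 5) * deriv τ y)) := i1.add i23
  simp only [key]
  rw [integral_sub i123 (i4.const_mul _), integral_add i1 i23, integral_add i2 i3, hQ0, integral_const_mul]
  ring

end Pool.Agent.Helper33.KV
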