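import Pool.Agent.Helper33.KV.GoalsF3
import Pool.Agent.Helper38.KV.PR

/-!
# Project KV, section F: the companion `Y` of a given profile `Z`
-/

namespace Pool.Agent.Helper33.KV

open Real MeasureTheory Filter Topology Pool.Agent.Helper41.KV Pool.Agent.Helper38.KV

theorem yex_tanh (y : ℝ) :
    HasDerivAt (fun y => Real.tanh (2 * y)) (2 * (1 / (Real.cosh (2 * y)) ^ 2)) y := by
  have hc : Real.cosh (2 * y) ≠ 0 := (Real.cosh_pos _).ne'
  have h2 : HasDerivAt (fun y : ℝ => 2 * y) 2 y := by
    simpa using (hasDerivAt_id y).const_mul (2 : ℝ)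
  have hs : HasDerivAt (fun y : ℝ => Real.sinh (2 * y)) (Real.cosh (2 * y) * 2) y :=
    (Real.hasDerivAt_sinh (2 * y)).comp y h2
  have hco : HasDerivAt (fun y : ℝ => Real.cosh (2 * y)) (Real.sinh (2 * y) * 2) y :=
    (Real.hasDerivAt_cosh (2 * y)).comp y h2
  have h := hs.div hco hc
  have e : (fun y : ℝ => Real.tanh (2 * y)) = fun y => Real.sinh (2 * y) / Real.cosh (2 * y) := by
    funext y
    rw [Real.tanh_eq_sinh_div_cosh]
  rw [e]
  refine h.congr_deriv ?_
  have h3 := Real.cosh_sq (2 * y)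
  field_simp
  linear_combination h3

theorem thm_YEX (hQ : S_QF) (hE : S_ECL1) (hE2 : S_ECL2) : S_YEX := by
  intro Z hZ
  have hZtail : IsE (fun y => Z y - Real.tanh (2 * y)) := hZ.tail
  have hQE := isE_Q hQ
  have hI : 0 < IQ := by
    have hi := E_int hE hQE
    refine (integral_pos_iff_support_of_nonneg (fun y => (hQ.2.1 y).le) hi).2 ?_
    have : Function.support Q = Set.univ := by
      ext y
      simp [(hQ.2.1 y).ne']
    rw [this]
    simp
  set m : ℝ := 4 / IQ with hm
  have hmI : m * (IQ / 2) = 2 := by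
    rw [hm]
    field_simp
    norm_num
  have hZP : IsP Z := by
    have h := P_add hE (E_P hE hZtail) (P_tanh hE)
    have he : (fun y => (Z y - Real.tanh (2 * y)) + Real.tanh (2 * y)) = Z := by
      funext y
      ring
    rwa [he] at h
  have hsech : IsE (fun y => 1 / (Real.cosh (2 * y)) ^ 2) := hE.2.2.2.2.2.2.2.2.2.2.2.2.2.1
  have hZ'E : IsE (deriv Z) := by
    have h := E_add hE (E_deriv hE hZtail) (E_smul hE 2 hsech)
    have he : (fun y => deriv (fun y => Z y - Real.tanh (2 * y)) y +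
        2 * (1 / (Real.cosh (2 * y)) ^ 2)) = deriv Z := by
      funext y
      have h' : HasDerivAt (fun y => Z y - Real.tanh (2 * y))
        (deriv Z y - 2 * (1 / (Real.cosh (2 * y)) ^ 2)) y := (P_diff hZP y).sub (yex_tanh y)
      rw [h'.deriv]
      ring
    rwa [he] at h
  have hfE : IsE (fun y => deriv Z y + m * Lam Q y) :=
    E_add hE hZ'E (E_smul hE m (isE_Lam hQ hE))
  have hZtop : Tendsto Z atTop (𝓝 1) := by
    have h := (IsE.tendsto hZtail).1.add tendsto_tanh_top
    rw [zero_add] at h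
    refine h.congr fun y => ?_
    ring
  have hZbot : Tendsto Z atBot (𝓝 (-1)) := by
    have h := (IsE.tendsto hZtail).2.add tendsto_tanh_bot
    rw [zero_add] at h
    refine h.congr fun y => ?_
    ring
  have hint : (∫ y, (deriv Z y + m * Lam Q y)) = 0 := by
    rw [integral_add (E_int hE hZ'E) ((E_int hE (isE_Lam hQ hE)).const_mul m),
      integral_const_mul, int_Lam hQ hE,
      integral_of_hasDerivAt_of_tendsto (fun y => P_diff hZP y) (E_int hE hZ'E) hZbot hZtop]
    have e1 : m * ((∫ y, Q y) / 2) = 2 := hmI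
    linarith
  obtain ⟨Y, hYE, hYd⟩ := hE2.1 _ hfE hint
  exact ⟨Y, hYE, hYd⟩

end Pool.Agent.Helper33.KV
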