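import Pool.Agent.Helper33.KV.GoalsC2

/-!
# Project KV, FHN: the right field up to order 4 does not depend on the truncation
-/

namespace Pool.Agent.Helper8.KV

open Pool.Agent.Helper41.KV

open Real MeasureTheory Filter Topology

theorem isH_const (c : ℝ) : IsH (fun _ => c) := by
  refine ⟨contDiff_const, fun k => ⟨|c|, fun z => ?_⟩⟩
  rw [iteratedDeriv_const]
  split_ifs
  · exact le_rfl
  · simp

theorem mem_r_h {h : ℝ → ℝ} (k : ℕ) (hh : IsH h) : (fun r _ y => r ^ k * h (r * y) : F3) ∈ MP k := by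
  apply Submodule.subset_span
  refine ⟨k, 0, 0, h, le_rfl, hh, ?_⟩
  funext r l y
  simp [mono]

theorem mem_h {h : ℝ → ℝ} (hh : IsH h) : (fun r _ y => h (r * y) : F3) ∈ MP 0 := by
  apply Submodule.subset_span
  refine ⟨0, 0, 0, h, le_rfl, hh, ?_⟩
  funext r l y
  simp [mono]

theorem mem_l : (fun _ l _ => l : F3) ∈ MP 0 := by
  apply Submodule.subset_span
  refine ⟨0, 1, 0, fun _ => 1, le_rfl, isH_const 1, ?_⟩
  funext r l y
  simp [mono]

theorem mem_const (c : ℝ) : (fun _ _ _ => c : F3) ∈ MP 0 :=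
  mem_h (isH_const c)

/-- multiplicativity -/
def Mul : Prop := ∀ (m m' : ℕ) (Φ Ψ : F3), Φ ∈ MP m → Ψ ∈ MP m' →
  (fun r l y => Φ r l y * Ψ r l y) ∈ MP (m + m')

theorem MP_mono {m m' : ℕ} (h : m ≤ m') {Φ : F3} (hΦ : Φ ∈ MP m') : Φ ∈ MP m := by
  apply Submodule.span_mono _ hΦ
  rintro Φ ⟨k, n, a, h', hk, hh⟩
  exact ⟨k, n, a, h', h.trans hk, hh⟩

/-- powers -/
theorem mem_pow (hmul : Mul) {m : ℕ} {Φ : F3} (h : Φ ∈ MP m) (i : ℕ) :
    (fun r l y => Φ r l y ^ i : F3) ∈ MP (m * i) := by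
  induction i with
  | zero => simpa using mem_const 1
  | succ i ih =>
    have := hmul _ _ _ _ ih h
    rw [mul_add, mul_one]
    simpa only [pow_succ] using this

/-- Evaluation of polynomials. -/
theorem mem_eval (hmul : Mul) {Φ1 Φ2 : F3} (h1 : Φ1 ∈ MP 0) (h2 : Φ2 ∈ MP 0) (g : XL) :
    (fun r l y => MvPolynomial.eval ![Φ1 r l y, Φ2 r l y] g : F3) ∈ MP 0 := by
  induction g using MvPolynomial.induction_on with
  | C a => simpa using mem_const a
  | add p q hp hq =>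
    have h3 := (MP 0).add_mem hp hq
    have h4 : (fun r l y => MvPolynomial.eval ![Φ1 r l y, Φ2 r l y] (p + q) : F3) =
        (fun r l y => MvPolynomial.eval ![Φ1 r l y, Φ2 r l y] p : F3) +
        (fun r l y => MvPolynomial.eval ![Φ1 r l y, Φ2 r l y] q : F3) := by
      funext r l y
      simp
    rw [h4]
    exact h3
  | mul_X p i hp =>
    have hX : (fun r l y => MvPolynomial.eval ![Φ1 r l y, Φ2 r l y] (MvPolynomial.X i : XL) : F3)
        ∈ MP 0 := by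
      fin_cases i
      · simpa using h1
      · simpa using h2
    have h3 := hmul _ _ _ _ hp hX
    have h4 : (fun r l y => MvPolynomial.eval ![Φ1 r l y, Φ2 r l y] (p * MvPolynomial.X i) : F3) =
        (fun r l y => MvPolynomial.eval ![Φ1 r l y, Φ2 r l y] p *
          MvPolynomial.eval ![Φ1 r l y, Φ2 r l y] (MvPolynomial.X i : XL) : F3) := by
      funext r l y
      rw [map_mul]
    rw [h4]
    exact h3

/-- One term of the right field. -/
noncomputable def TT (α : ℝ) (h0 h1 h2 h3 : ℝ → ℝ) (i : ℕ) (g : XL) : F3 := fun r l y =>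
  (r ^ 1 * h0 (r * y)) * (MvPolynomial.eval ![r * h2 (r * y), l + h3 (r * y)] g *
    (r ^ 2 * h1 (r * y) * (4 * α + 3)⁻¹) ^ i)

theorem Fh_eq {α : ℝ} {h0 h1 h2 h3 : ℝ → ℝ} (hP : S_PHI) (n : ℕ) (g0 : XL) :
    Fh α h0 h1 h2 h3 n g0 =
      ∑ i ∈ Finset.range (n + 1), TT α h0 h1 h2 h3 i ((Phi α g0 n).coeff i) := by
  funext r l y
  simp only [Finset.sum_apply, Fh, TT]
  have hdeg : ((Phi α g0 n).map (MvPolynomial.eval ![r * h2 (r * y), l + h3 (r * y)])).natDegree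
      < n + 1 := by
    have h1 := hP.1 α g0 n
    have h2 := Polynomial.natDegree_map_le
      (f := MvPolynomial.eval ![r * h2 (r * y), l + h3 (r * y)]) (p := Phi α g0 n)
    omega
  rw [Polynomial.eval_eq_sum_range' hdeg, Finset.mul_sum]
  refine Finset.sum_congr rfl fun i _ => ?_
  rw [Polynomial.coeff_map, div_eq_mul_inv]
  ring

theorem mem_base {α : ℝ} {h0 h1 h2 h3 : ℝ → ℝ} (hmul : Mul) (H : IsAux α h0 h1 h2 h3) (i : ℕ) :
    (fun r _ y => (r ^ 2 * h1 (r * y) * (4 * α + 3)⁻¹) ^ i : F3) ∈ MP (2 * i) := by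
  have h := hmul _ _ _ _ (mem_r_h 2 H.H1) (mem_const (4 * α + 3)⁻¹)
  exact mem_pow hmul h i

/-- General term. -/
theorem TT_mem {α : ℝ} {h0 h1 h2 h3 : ℝ → ℝ} (hmul : Mul) (H : IsAux α h0 h1 h2 h3) (i : ℕ)
    (G : XL) : TT α h0 h1 h2 h3 i G ∈ MP (1 + (0 + 2 * i)) := by
  have hr0 : (fun r _ y => r * h2 (r * y) : F3) ∈ MP 0 := by
    simpa using MP_mono (Nat.zero_le 1) (mem_r_h 1 H.H2)
  have hl : (fun r l y => l + h3 (r * y) : F3) ∈ MP 0 := (MP 0).add_mem mem_l (mem_h H.H3)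
  have hG := mem_eval hmul hr0 hl G
  exact hmul _ _ _ _ (mem_r_h 1 H.H0) (hmul _ _ _ _ hG (mem_base hmul H i))

end Pool.Agent.Helper8.KV

namespace Pool.Agent.Helper33.KV

open Real MeasureTheory Pool.Agent.Helper41.KV Pool.Agent.Helper8.KV

theorem gZero_three (p : ℕ → Polynomial ℝ) {J : ℕ} (hJ : 3 ≤ J) (hp : ∀ j, 3 ≤ j → p j = 0) :
    gZero p J = gZero p 3 := by
  unfold gZero
  symm
  apply Finset.sum_subset (Finset.range_mono hJ)
  intro j _ hj
  rw [Finset.mem_range, not_lt] at hj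
  rw [hp j hj]
  simp

theorem thm_FHN (hM : S_MCL1) (_hM2 : S_MCL2) (hP : S_PHI) : S_FHN := by
  have hmul : Mul := hM.2.2.2.2.1
  intro α h0 h1 h2 h3 J n p _ _ H hJ hn hp
  rw [gZero_three p hJ hp, Fh_eq hP, Fh_eq hP]
  have h4 : ∑ i ∈ Finset.range (3 + 1), TT α h0 h1 h2 h3 i ((Phi α (gZero p 3) 3).coeff i) =
      ∑ i ∈ Finset.range (3 + 1), TT α h0 h1 h2 h3 i ((Phi α (gZero p 3) n).coeff i) := by
    refine Finset.sum_congr rfl fun i hi => ?_
    have hi' : i ≤ 3 := Nat.lt_succ_iff.mp (Finset.mem_range.mp hi)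
    rw [hP.2.1 α (gZero p 3) i 3 n hi' (hJ.trans hn)]
  rw [h4, ← Finset.sum_Ico_eq_sub _ (by omega : 3 + 1 ≤ n + 1)]
  refine Submodule.sum_mem _ fun i hi => ?_
  have h5 := TT_mem hmul H i ((Phi α (gZero p 3) n).coeff i)
  rw [Finset.mem_Ico] at hi
  exact MP_mono (by omega) h5

end Pool.Agent.Helper33.KV
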